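import Pool.Agent.Run7.h991.MU.Iface

/-!
# Project MU of helper991, piece KHOL (helper352)

The power map `z ↦ x^z` into the continuous functions on the unit interval is holomorphic on the right
half plane: it is continuous (joint continuity of the power), and the Cauchy integral formula holds
because it holds at every point `x`.
-/

set_option autoImplicit false

open MeasureTheory Metric Complex
open scoped NNReal Real

namespace H991.MU

theorem khol_cont1 {z : ℂ} (hz : 0 < z.re) :
    Continuous fun x : unitInterval => (((x : ℝ) : ℂ)) ^ z := by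
  rw [continuous_iff_continuousAt]
  intro x
  have h := Complex.continuousAt_ofReal_cpow (x : ℝ) z (Or.inl hz)
  exact ContinuousAt.comp (f := fun y : unitInterval => ((y : ℝ), z)) h
    (by fun_prop)

open Classical in
/-- the powers as continuous functions on the unit interval -/
noncomputable def kholk (z : ℂ) : C(unitInterval, ℂ) :=
  if h : 0 < z.re then ⟨fun x => ((x : ℝ) : ℂ) ^ z, khol_cont1 h⟩ else 0

theorem kholk_apply {z : ℂ} (hz : 0 < z.re) (x : unitInterval) :
    kholk z x = ((x : ℝ) : ℂ) ^ z := by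
  unfold kholk
  rw [dif_pos hz]
  rfl

theorem kholk_cont : ContinuousOn kholk {z : ℂ | 0 < z.re} := by
  rw [continuousOn_iff_continuous_domRestrict]
  refine ContinuousMap.continuous_of_continuous_uncurry _ ?_
  rw [continuous_iff_continuousAt]
  rintro ⟨⟨z, hz⟩, x⟩
  have hz' : 0 < z.re := hz
  have h := Complex.continuousAt_ofReal_cpow (x : ℝ) z (Or.inl hz')
  have hin : Continuous (fun p : {z : ℂ | 0 < z.re} × unitInterval => ((p.2 : ℝ), (p.1 : ℂ))) :=
    (continuous_subtype_val.comp continuous_snd).prodMk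
      (continuous_subtype_val.comp continuous_fst)
  have h2 := ContinuousAt.comp (g := fun p : ℝ × ℂ => (p.1 : ℂ) ^ p.2)
    (f := fun p : {z : ℂ | 0 < z.re} × unitInterval => ((p.2 : ℝ), (p.1 : ℂ)))
    (x := ((⟨z, hz⟩ : {z : ℂ | 0 < z.re}), x)) h hin.continuousAt
  refine h2.congr (Filter.Eventually.of_forall ?_)
  rintro ⟨⟨w, hw⟩, y⟩
  exact (kholk_apply hw y).symm

theorem khol_pt (x : unitInterval) {z : ℂ} (hz : 0 < z.re) :
    DifferentiableAt ℂ (fun w : ℂ => ((x : ℝ) : ℂ) ^ w) z :=
  differentiableAt_id.const_cpow (Or.inr (by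
    intro h
    simp only [id] at h
    rw [h] at hz
    simp at hz))

theorem kholk_diff : DifferentiableOn ℂ kholk {z : ℂ | 0 < z.re} := by
  intro z0 hz0
  have hz0' : 0 < z0.re := hz0
  obtain ⟨R, hR⟩ : ∃ R : ℝ≥0, (R : ℝ) = z0.re / 2 := ⟨⟨z0.re / 2, by linarith⟩, rfl⟩
  have hRpos : 0 < R := by
    have : 0 < (R : ℝ) := by rw [hR]; linarith
    exact_mod_cast this
  have hsub : closedBall z0 R ⊆ {z : ℂ | 0 < z.re} := by
    intro w hw
    rw [mem_closedBall, dist_eq_norm] at hw
    have h1 : |(w - z0).re| ≤ ‖w - z0‖ := Complex.abs_re_le_norm _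
    have h2 := (abs_le.1 (h1.trans hw)).1
    rw [Complex.sub_re, hR] at h2
    show 0 < w.re
    linarith
  have hci : ∀ w ∈ ball z0 R, CircleIntegrable (fun z => (z - w)⁻¹ • kholk z) z0 R := by
    intro w hw
    refine ContinuousOn.circleIntegrable R.2 ?_
    have a1 : ContinuousOn (fun z : ℂ => (z - w)⁻¹) (sphere z0 R) := by
      refine ContinuousOn.inv₀ (by fun_prop) ?_
      intro z hz h
      have hzw : z = w := sub_eq_zero.1 h
      rw [hzw, mem_sphere] at hz
      rw [mem_ball] at hw
      linarith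
    exact a1.smul (kholk_cont.mono (sphere_subset_closedBall.trans hsub))
  have hcauchy : ∀ w ∈ ball z0 R,
      ((2 * π * I : ℂ)⁻¹ • ∮ z in C(z0, R), (z - w)⁻¹ • kholk z) = kholk w := by
    intro w hw
    ext x
    have hwre : 0 < w.re := hsub (ball_subset_closedBall hw)
    have hd : DiffContOnCl ℂ (fun z : ℂ => ((x : ℝ) : ℂ) ^ z) (ball z0 R) := by
      refine DifferentiableOn.diffContOnCl ?_
      rw [closure_ball z0 (by rw [hR]; exact (by linarith : z0.re / 2 > 0).ne')]
      exact fun z hz => (khol_pt x (hsub hz)).differentiableWithinAt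
    have h1 := hd.two_pi_i_inv_smul_circleIntegral_sub_inv_smul hw
    rw [kholk_apply hwre, ← h1]
    rw [ContinuousMap.smul_apply]
    congr 1
    have h2 := ContinuousLinearMap.intervalIntegral_comp_comm
      (ContinuousMap.evalCLM ℂ x : C(unitInterval, ℂ) →L[ℂ] ℂ) (hci w hw).out
    have h3 : (∮ z in C(z0, R), (z - w)⁻¹ • kholk z) x =
        (ContinuousMap.evalCLM ℂ x : C(unitInterval, ℂ) →L[ℂ] ℂ)
          (∮ z in C(z0, R), (z - w)⁻¹ • kholk z) := rfl
    rw [h3]
    unfold circleIntegral
    rw [← h2]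
    refine intervalIntegral.integral_congr ?_
    intro θ _
    have hθ : 0 < (circleMap z0 R θ).re :=
      hsub (circleMap_mem_closedBall z0 R.2 θ)
    show (deriv (circleMap z0 R) θ • ((circleMap z0 R θ - w)⁻¹ • kholk (circleMap z0 R θ))) x = _
    rw [ContinuousMap.smul_apply, ContinuousMap.smul_apply, kholk_apply hθ]
  have hint : CircleIntegrable kholk z0 R :=
    ContinuousOn.circleIntegrable R.2 (kholk_cont.mono (sphere_subset_closedBall.trans hsub))
  have hps := hasFPowerSeriesOn_cauchy_integral hint hRpos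
  have hda : DifferentiableAt ℂ
      (fun w : ℂ => ((2 * π * I : ℂ)⁻¹ • ∮ z in C(z0, R), (z - w)⁻¹ • kholk z)) z0 :=
    hps.hasFPowerSeriesAt.analyticAt.differentiableAt
  have heq : kholk =ᶠ[nhds z0]
      (fun w : ℂ => ((2 * π * I : ℂ)⁻¹ • ∮ z in C(z0, R), (z - w)⁻¹ • kholk z)) := by
    filter_upwards [ball_mem_nhds z0 (by exact_mod_cast hRpos : (0 : ℝ) < R)] with w hw
    exact (hcauchy w hw).symm
  exact (hda.congr_of_eventuallyEq heq).differentiableWithinAt

/-- composition with a continuous map, as a continuous linear map -/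
noncomputable def kholc (g : C(Q, unitInterval)) : C(unitInterval, ℂ) →L[ℂ] C(Q, ℂ) :=
  LinearMap.mkContinuous
    { toFun := fun f => f.comp g
      map_add' := fun _ _ => rfl
      map_smul' := fun _ _ => rfl } 1 (by
    intro f
    rw [one_mul]
    exact (ContinuousMap.norm_le _ (norm_nonneg f)).2 fun q => f.norm_coe_le_norm (g q))

theorem kholc_apply (g : C(Q, unitInterval)) (f : C(unitInterval, ℂ)) (q : Q) :
    kholc g f q = f (g q) := rfl

theorem khol_le {z : ℂ} (hz : 0 < z.re) (x : unitInterval) : ‖((x : ℝ) : ℂ) ^ z‖ ≤ 1 := by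
  rw [Complex.norm_cpow_eq_rpow_re_of_nonneg x.2.1 hz.ne']
  exact Real.rpow_le_one x.2.1 x.2.2 hz.le

/-- KHOL -/
theorem t_KHOL : S_KHOL := by
  refine ⟨fun p => kholc ⟨Prod.fst, continuous_fst⟩ (kholk p.1) *
    kholc ⟨Prod.snd, continuous_snd⟩ (kholk p.2), ?_, ?_, ?_⟩
  · refine DifferentiableOn.mul ?_ ?_
    · refine (kholc _).differentiable.comp_differentiableOn ?_
      exact kholk_diff.comp differentiable_fst.differentiableOn fun p hp => hp.1
    · refine (kholc _).differentiable.comp_differentiableOn ?_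
      exact kholk_diff.comp differentiable_snd.differentiableOn fun p hp => hp.2
  · intro p hp
    refine (ContinuousMap.norm_le _ zero_le_one).2 fun q => ?_
    rw [ContinuousMap.mul_apply, kholc_apply, kholc_apply, norm_mul, kholk_apply hp.1,
      kholk_apply hp.2]
    exact mul_le_one₀ (khol_le hp.1 _) (norm_nonneg _) (khol_le hp.2 _)
  · intro m n hm hn
    ext q
    have h1 : 0 < ((m : ℂ)).re := by
      rw [Complex.natCast_re]; exact_mod_cast hm
    have h2 : 0 < ((n : ℂ)).re := by
      rw [Complex.natCast_re]; exact_mod_cast hn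
    rw [ContinuousMap.mul_apply, kholc_apply, kholc_apply, kholk_apply h1, kholk_apply h2,
      Complex.cpow_natCast, Complex.cpow_natCast]
    rfl

end H991.MU
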